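import Mathlib

/-!
Extraction of roots of order prime to `l` in a finite extension of degree prime to `l`.
-/

namespace Run7.h652.TL

open Module Polynomial IntermediateField

/-- A polynomial of degree prime to `l` has an irreducible factor of degree prime to `l`. -/
theorem exists_irreducible_factor {k : Type*} [Field k] {l : ℕ} :
    ∀ (N : ℕ) (P : k[X]), P.natDegree ≤ N → ¬ l ∣ P.natDegree →
      ∃ g : k[X], Irreducible g ∧ g ∣ P ∧ ¬ l ∣ g.natDegree := by
  intro N
  induction N with
  | zero =>
    intro P hP hl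
    exact absurd (by rw [Nat.le_zero.1 hP]; exact dvd_zero l) hl
  | succ N ih =>
    intro P hP hl
    have hdeg : P.natDegree ≠ 0 := fun h => hl (by rw [h]; exact dvd_zero l)
    have hP0 : P ≠ 0 := fun h => hdeg (by rw [h, natDegree_zero])
    have hnu : ¬ IsUnit P := fun h => hdeg (natDegree_eq_zero_of_isUnit h)
    obtain ⟨g, hg, h, rfl⟩ := WfDvdMonoid.exists_irreducible_factor hnu hP0
    have hh0 : h ≠ 0 := right_ne_zero_of_mul hP0
    have hd : (g * h).natDegree = g.natDegree + h.natDegree := natDegree_mul hg.ne_zero hh0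
    by_cases hgl : l ∣ g.natDegree
    · have hhl : ¬ l ∣ h.natDegree := fun h' => hl (by rw [hd]; exact dvd_add hgl h')
      have hgpos : 0 < g.natDegree := hg.natDegree_pos
      obtain ⟨g', hg', hgd, hgl'⟩ := ih h (by omega) hhl
      exact ⟨g', hg', hgd.mul_left g, hgl'⟩
    · exact ⟨g, hg, Dvd.intro _ rfl, hgl⟩

theorem exists_roots {K : Type*} [Field K] {σ : Type*} {l : ℕ} (hl : l.Prime) (y : σ → K)
    (e : σ → ℕ) (he : ∀ i, ¬ l ∣ e i) (s : Finset σ) :
    ∃ L : IntermediateField K (AlgebraicClosure K), FiniteDimensional K L ∧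
      ¬ l ∣ finrank K L ∧ finrank K L ≤ ∏ i ∈ s, e i ∧
      ∀ i ∈ s, ∃ x : L, x ^ e i = algebraMap K L (y i) := by
  classical
  induction s using Finset.induction_on with
  | empty =>
    refine ⟨⊥, inferInstance, ?_, ?_, by simp⟩
    · rw [IntermediateField.finrank_bot]
      exact hl.one_lt.ne' ∘ Nat.dvd_one.1
    · rw [IntermediateField.finrank_bot]
      simp
  | insert a s ha ih =>
    obtain ⟨L, hfin, hnd, hle, hx⟩ := ih
    have hdeg : (X ^ e a - C (algebraMap K L (y a)) : L[X]).natDegree = e a := by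
      have : e a ≠ 0 := fun h => he a (by rw [h]; exact dvd_zero l)
      exact natDegree_X_pow_sub_C
    obtain ⟨g, hg, ⟨h, hgh⟩, hgl⟩ := exists_irreducible_factor (l := l) (e a)
      (X ^ e a - C (algebraMap K L (y a)) : L[X]) hdeg.le (by rw [hdeg]; exact he a)
    obtain ⟨α, hα⟩ : ∃ α : AlgebraicClosure K, aeval α g = 0 := by
      have hgd : (g.map (algebraMap L (AlgebraicClosure K))).degree ≠ 0 := by
        rw [degree_map]
        exact (degree_pos_of_irreducible hg).ne'
      obtain ⟨α, hα⟩ := IsAlgClosed.exists_root _ hgd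
      refine ⟨α, ?_⟩
      rw [IsRoot, eval_map] at hα
      exact hα
    have hint : IsIntegral L α := by
      refine ⟨g * C g.leadingCoeff⁻¹, monic_mul_leadingCoeff_inv hg.ne_zero, ?_⟩
      rw [← aeval_def, map_mul, hα, zero_mul]
    have hmin : finrank L L⟮α⟯ = g.natDegree := by
      rw [adjoin.finrank hint]
      have h1 : minpoly L α = g * C g.leadingCoeff⁻¹ :=
        (minpoly.eq_of_irreducible hg hα).symm
      rw [h1]
      exact natDegree_mul_C (inv_ne_zero (leadingCoeff_ne_zero.2 hg.ne_zero))
    have hpos : g.natDegree ≤ e a := by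
      rw [← hdeg]
      refine natDegree_le_of_dvd ⟨h, hgh⟩ ?_
      intro h0
      rw [h0, natDegree_zero] at hdeg
      exact he a (by rw [← hdeg]; exact dvd_zero l)
    have hfr : finrank K (L⟮α⟯.restrictScalars K) = finrank K L * g.natDegree := by
      rw [← hmin]
      exact (Module.finrank_mul_finrank K L L⟮α⟯).symm
    have hfinα : FiniteDimensional L L⟮α⟯ := adjoin.finiteDimensional hint
    refine ⟨L⟮α⟯.restrictScalars K, ?_, ?_, ?_, ?_⟩
    · exact (FiniteDimensional.trans K L L⟮α⟯ : FiniteDimensional K L⟮α⟯)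
    · rw [hfr]
      exact hl.not_dvd_mul hnd hgl
    · rw [hfr, Finset.prod_insert ha, mul_comm (e a)]
      exact Nat.mul_le_mul hle hpos
    · intro i hi
      rcases Finset.mem_insert.1 hi with rfl | hi
      · refine ⟨⟨α, mem_adjoin_simple_self L α⟩, ?_⟩
        apply Subtype.ext
        have h1 : aeval α (X ^ e i - C (algebraMap K L (y i)) : L[X]) = 0 := by
          rw [hgh, map_mul, hα, zero_mul]
        rw [map_sub, map_pow, aeval_X, aeval_C, sub_eq_zero] at h1
        exact h1
      · obtain ⟨x, hx'⟩ := hx i hi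
        refine ⟨⟨x.1, ?_⟩, ?_⟩
        · exact L⟮α⟯.algebraMap_mem x
        · apply Subtype.ext
          have h1 : ((x ^ e i : L) : AlgebraicClosure K)
              = ((algebraMap K L (y i) : L) : AlgebraicClosure K) := by rw [hx']
          exact h1

end Run7.h652.TL
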